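import Pool.Agent.Helper26.RP.Goals

/-!
# Packet TRW (MP_105b7b_pr)
-/

noncomputable section

namespace RP.PkTRW

open MeasureTheory Filter Topology RP

lemma w_nonneg (n : ℕ) (K : Set E) : 0 ≤ w n K := by
  unfold w vr ar
  positivity

lemma vr_tri (hTRE : G_TRE) (p q r : E) (h : orient p q r ≠ 0) (n : ℕ) (A : ℝ)
    (hA : |orient p q r| / 2 = A) :
    vr n (tri p q r) = w n T0 * A ^ n / (n.factorial : ℝ) := by
  obtain ⟨-, h2, h3⟩ := hTRE.1 p q r h
  have hpos : 0 < A := by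
    rw [← hA]
    have := abs_pos.mpr h
    positivity
  have hf : (0 : ℝ) < (n.factorial : ℝ) := by positivity
  rw [← h3 n]
  unfold w
  rw [h2, hA]
  field_simp

/-- The translation. -/
def tr (t : E) (p : E) : E := (LinearMap.id : E →ₗ[ℝ] E) p + t

lemma vr_tr (hAFF : G_AFF) (t : E) (n : ℕ) (U : Set E) : vr n (tr t '' U) = vr n U := by
  have h := (hAFF LinearMap.id t (by simp)).2.1 n U
  unfold vr tr
  rw [h]
  simp

lemma body_tr (hAFF : G_AFF) (t : E) (U : Set E) (hU : Body U) : Body (tr t '' U) :=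
  ((hAFF LinearMap.id t (by simp)).2.2.2 0 U hU).1

lemma mem_tr (t : E) (U : Set E) (q : E) : q ∈ tr t '' U ↔ (q.1 - t.1, q.2 - t.2) ∈ U := by
  constructor
  · rintro ⟨p, hp, rfl⟩
    have : ((tr t p).1 - t.1, (tr t p).2 - t.2) = p := by
      unfold tr
      ext <;> simp
    rw [this]
    exact hp
  · intro h
    refine ⟨_, h, ?_⟩
    unfold tr
    ext <;> simp

lemma pow_bound (N : ℕ) (hN : 6 ≤ N) : Real.exp (-4) ≤ (1 - 1 / (N : ℝ)) ^ (2 * N) := by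
  have hN' : (6 : ℝ) ≤ N := by exact_mod_cast hN
  have h1 : 0 < 1 - 1 / (N : ℝ) := by
    have : 1 / (N : ℝ) ≤ 1 / 6 := one_div_le_one_div_of_le (by norm_num) hN'
    linarith
  have h2 : Real.exp (-(2 / (N : ℝ))) ≤ 1 - 1 / (N : ℝ) := by
    have h3 : (1 - 1 / (N : ℝ))⁻¹ ≤ Real.exp (2 / (N : ℝ)) := by
      have h4 : 2 / (N : ℝ) + 1 ≤ Real.exp (2 / (N : ℝ)) := Real.add_one_le_exp _
      have h5 : (1 - 1 / (N : ℝ))⁻¹ ≤ 2 / (N : ℝ) + 1 := by
        rw [inv_le_iff_one_le_mul₀ h1]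
        have hx : 1 / (N : ℝ) ≤ 1 / 6 := one_div_le_one_div_of_le (by norm_num) hN'
        have hx0 : 0 < 1 / (N : ℝ) := by positivity
        have h2x : 2 / (N : ℝ) = 2 * (1 / (N : ℝ)) := by ring
        rw [h2x]
        nlinarith
      linarith
    rw [Real.exp_neg]
    rw [inv_le_comm₀ (Real.exp_pos _) h1]
    exact h3
  calc Real.exp (-4) = (Real.exp (-(2 / (N : ℝ)))) ^ (2 * N) := by
        rw [← Real.exp_nat_mul]
        congr 1
        push_cast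
        field_simp
        ring
    _ ≤ (1 - 1 / (N : ℝ)) ^ (2 * N) := pow_le_pow_left₀ (Real.exp_pos _).le h2 _

lemma mod_bound (hMOD : G_MOD) (a b : ℕ) (ha : 3 ≤ a) (hb : 3 ≤ b) :
    1 ≤ ((a : ℝ) + b + 1) * (((a + b).choose a : ℝ) * ((a : ℝ) / ((a : ℝ) + b)) ^ a *
      ((b : ℝ) / ((a : ℝ) + b)) ^ b) := by
  have h := hMOD a b
  have h' : ((a : ℝ) + b) ^ (a + b) ≤
      ((a : ℝ) + b + 1) * (((a + b).choose a : ℝ) * (a : ℝ) ^ a * (b : ℝ) ^ b) := by
    exact_mod_cast h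
  have ha' : (0 : ℝ) < a := by positivity
  have hb' : (0 : ℝ) < b := by positivity
  have hN : (0 : ℝ) < (a : ℝ) + b := by positivity
  rw [div_pow, div_pow]
  have e : ((a : ℝ) + b + 1) * (((a + b).choose a : ℝ) * ((a : ℝ) ^ a / ((a : ℝ) + b) ^ a) *
      ((b : ℝ) ^ b / ((a : ℝ) + b) ^ b)) =
      (((a : ℝ) + b + 1) * (((a + b).choose a : ℝ) * (a : ℝ) ^ a * (b : ℝ) ^ b)) /
        ((a : ℝ) + b) ^ (a + b) := by
    rw [pow_add]
    field_simp
  rw [e, le_div_iff₀ (by positivity)]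
  linarith

lemma algebra (a b : ℕ) (ha : 3 ≤ a) (hb : 3 ≤ b) (wa wb wc P Q : ℝ) (hwa : 0 ≤ wa)
    (hwb : 0 ≤ wb) (hwc : 0 ≤ wc) (hP : Real.exp (-4) ≤ P)
    (hQ : 1 ≤ ((a : ℝ) + b + 1) * (((a + b).choose a : ℝ) * Q)) (hQ0 : 0 ≤ Q)
    (h : (1 / ((a : ℝ) + b) * (1 / 20) * (3 / 16) / (256 * 1)) ^ 12 * P *
      (wa * wb * Q * (1 / 2) ^ (a + b) / ((a.factorial : ℝ) * b.factorial)) ≤
      16 * (a : ℝ) ^ 2 * (b : ℝ) ^ 2 *
        (wc * (1 / 2) ^ (a + b + 6) / ((a + b + 6).factorial : ℝ))) :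
    wa * wb ≤ ((a : ℝ) + b) ^ 100 * wc := by
  set N : ℝ := (a : ℝ) + b with hN
  have ha' : (3 : ℝ) ≤ a := by exact_mod_cast ha
  have hb' : (3 : ℝ) ≤ b := by exact_mod_cast hb
  have hN6 : (6 : ℝ) ≤ N := by rw [hN]; linarith
  have hfa : (0 : ℝ) < (a.factorial : ℝ) := by positivity
  have hfb : (0 : ℝ) < (b.factorial : ℝ) := by positivity
  have hfN : (0 : ℝ) < ((a + b).factorial : ℝ) := by positivity
  have hch : ((a + b).choose a : ℝ) * a.factorial * b.factorial = ((a + b).factorial : ℝ) := by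
    have h0 := Nat.choose_mul_factorial_mul_factorial (n := a + b) (k := a) (by omega)
    rw [Nat.add_sub_cancel_left] at h0
    exact_mod_cast h0
  have hmono : ((a + b).factorial : ℝ) ≤ ((a + b + 6).factorial : ℝ) := by
    exact_mod_cast Nat.factorial_le (by omega)
  have h2 : (0 : ℝ) < (1 / 2) ^ (a + b) := by positivity
  -- the right side
  have hR : 16 * (a : ℝ) ^ 2 * (b : ℝ) ^ 2 *
      (wc * (1 / 2) ^ (a + b + 6) / ((a + b + 6).factorial : ℝ)) ≤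
      (N ^ 4 * wc) * ((1 / 2) ^ (a + b) / ((a + b).factorial : ℝ)) := by
    have h3 : (1 / 2 : ℝ) ^ (a + b + 6) / ((a + b + 6).factorial : ℝ) ≤
        (1 / 64) * ((1 / 2) ^ (a + b) / ((a + b).factorial : ℝ)) := by
      have e : (1 / 2 : ℝ) ^ (a + b + 6) = (1 / 64) * (1 / 2) ^ (a + b) := by
        rw [pow_add]; norm_num; ring
      rw [e, mul_div_assoc]
      gcongr
    have h4 : (a : ℝ) ^ 2 * (b : ℝ) ^ 2 ≤ N ^ 4 := by
      have h5 : (a : ℝ) * b ≤ N ^ 2 := by rw [hN]; nlinarith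
      have h6 : 0 ≤ (a : ℝ) * b := by positivity
      calc (a : ℝ) ^ 2 * (b : ℝ) ^ 2 = ((a : ℝ) * b) ^ 2 := by ring
        _ ≤ (N ^ 2) ^ 2 := pow_le_pow_left₀ h6 h5 2
        _ = N ^ 4 := by ring
    have hX : (0 : ℝ) ≤ (1 / 2) ^ (a + b) / ((a + b).factorial : ℝ) := by positivity
    calc 16 * (a : ℝ) ^ 2 * (b : ℝ) ^ 2 *
        (wc * (1 / 2) ^ (a + b + 6) / ((a + b + 6).factorial : ℝ)) =
        16 * ((a : ℝ) ^ 2 * (b : ℝ) ^ 2) * (wc *
          ((1 / 2) ^ (a + b + 6) / ((a + b + 6).factorial : ℝ))) := by ring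
      _ ≤ 16 * (N ^ 4) * (wc * ((1 / 64) * ((1 / 2) ^ (a + b) / ((a + b).factorial : ℝ)))) := by
          gcongr
      _ ≤ (N ^ 4 * wc) * ((1 / 2) ^ (a + b) / ((a + b).factorial : ℝ)) := by
          have : 0 ≤ N ^ 4 * wc * ((1 / 2) ^ (a + b) / ((a + b).factorial : ℝ)) := by positivity
          nlinarith
  -- the left side
  have hL : (1 / N * (1 / 20) * (3 / 16) / (256 * 1)) ^ 12 * P *
      (wa * wb * Q * (1 / 2) ^ (a + b) / ((a.factorial : ℝ) * b.factorial)) =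
      ((3 / 81920) ^ 12 / N ^ 12 * P * (wa * wb) * (((a + b).choose a : ℝ) * Q)) *
        ((1 / 2) ^ (a + b) / ((a + b).factorial : ℝ)) := by
    rw [← hch]
    have hc0 : (0 : ℝ) < ((a + b).choose a : ℝ) := by
      have := Nat.choose_pos (n := a + b) (k := a) (by omega)
      exact_mod_cast this
    have e1 : (1 / N * (1 / 20) * (3 / 16) / (256 * 1)) ^ 12 = (3 / 81920) ^ 12 / N ^ 12 := by
      rw [← div_pow]
      congr 1
      field_simp
      norm_num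
    rw [e1]
    field_simp
  rw [hL] at h
  have hX : (0 : ℝ) < (1 / 2) ^ (a + b) / ((a + b).factorial : ℝ) := by positivity
  have h7 : (3 / 81920) ^ 12 / N ^ 12 * P * (wa * wb) * (((a + b).choose a : ℝ) * Q) ≤
      N ^ 4 * wc := le_of_mul_le_mul_right (h.trans hR) hX
  -- P
  have hexp : (1 : ℝ) / 81 ≤ Real.exp (-4) := by
    have h8 : Real.exp 1 ≤ 3 := by
      have := Real.exp_one_lt_d9
      linarith
    have h9 : Real.exp 4 ≤ 81 := by
      calc Real.exp 4 = Real.exp 1 ^ 4 := by rw [← Real.exp_nat_mul]; norm_num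
        _ ≤ 3 ^ 4 := pow_le_pow_left₀ (Real.exp_pos _).le h8 4
        _ = 81 := by norm_num
    rw [Real.exp_neg, ← one_div]
    exact one_div_le_one_div_of_le (Real.exp_pos _) h9
  have hP' : (1 : ℝ) / 81 ≤ P := hexp.trans hP
  have hc0 : (0 : ℝ) ≤ ((a + b).choose a : ℝ) := by positivity
  -- combine
  have hS : 0 ≤ wa * wb := mul_nonneg hwa hwb
  have h10 : (3 / 81920) ^ 12 / N ^ 12 * (1 / 81) * (wa * wb) ≤ (N + 1) * (N ^ 4 * wc) := by
    calc (3 / 81920) ^ 12 / N ^ 12 * (1 / 81) * (wa * wb) ≤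
        (3 / 81920) ^ 12 / N ^ 12 * P * (wa * wb) := by gcongr
      _ = (3 / 81920) ^ 12 / N ^ 12 * P * (wa * wb) * 1 := by ring
      _ ≤ (3 / 81920) ^ 12 / N ^ 12 * P * (wa * wb) *
          ((N + 1) * (((a + b).choose a : ℝ) * Q)) := by
          have hP0 : 0 ≤ P := le_trans (by norm_num) hP'
          gcongr
      _ = (N + 1) * ((3 / 81920) ^ 12 / N ^ 12 * P * (wa * wb) *
          (((a + b).choose a : ℝ) * Q)) := by ring
      _ ≤ (N + 1) * (N ^ 4 * wc) := by gcongr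
  have h11 : wa * wb ≤ (81 * (81920 / 3) ^ 12 * N ^ 12) * ((N + 1) * (N ^ 4 * wc)) := by
    have e : wa * wb = (81 * (81920 / 3) ^ 12 * N ^ 12) *
        ((3 / 81920) ^ 12 / N ^ 12 * (1 / 81) * (wa * wb)) := by
      have : (81920 / 3 : ℝ) ^ 12 * (3 / 81920) ^ 12 = 1 := by
        rw [← mul_pow]; norm_num
      field_simp
    rw [e]
    gcongr
  refine h11.trans ?_
  have h12 : (81 : ℝ) ≤ N ^ 3 := by
    calc (81 : ℝ) ≤ 6 ^ 3 := by norm_num
      _ ≤ N ^ 3 := by gcongr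
  have h13 : (81920 / 3 : ℝ) ^ 12 ≤ N ^ 72 := by
    calc (81920 / 3 : ℝ) ^ 12 ≤ (6 ^ 6) ^ 12 := by
          apply pow_le_pow_left₀ (by norm_num) (by norm_num)
      _ ≤ (N ^ 6) ^ 12 := by gcongr
      _ = N ^ 72 := by ring
  have h14 : N + 1 ≤ N ^ 2 := by nlinarith
  have h1N : (1 : ℝ) ≤ N := by linarith
  calc (81 * (81920 / 3) ^ 12 * N ^ 12) * ((N + 1) * (N ^ 4 * wc)) ≤
      (N ^ 3 * N ^ 72 * N ^ 12) * (N ^ 2 * (N ^ 4 * wc)) := by gcongr
    _ = N ^ 93 * wc := by ring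
    _ ≤ N ^ 100 * wc := by
        apply mul_le_mul_of_nonneg_right _ hwc
        exact pow_le_pow_right₀ h1N (by norm_num)

theorem trw : G_CUT → G_TRE → G_AFF → G_MOD → G_TRW := by
  intro hCUT hTRE hAFF hMOD
  refine ⟨100, fun a b ha hb hab hba => ?_⟩
  have ha' : (3 : ℝ) ≤ a := by exact_mod_cast ha
  have hb' : (3 : ℝ) ≤ b := by exact_mod_cast hb
  have hab' : (a : ℝ) ≤ 4 * b := by exact_mod_cast hab
  have hba' : (b : ℝ) ≤ 4 * a := by exact_mod_cast hba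
  set N : ℝ := (a : ℝ) + b with hN
  have hN6 : (6 : ℝ) ≤ N := by rw [hN]; linarith
  have hN0 : (0 : ℝ) < N := by linarith
  obtain ⟨c, hc⟩ : ∃ c : ℝ, c = (a : ℝ) / N := ⟨_, rfl⟩
  have hc1 : 1 / 5 ≤ c := by
    rw [hc, le_div_iff₀ hN0, hN]; linarith
  have hc2 : c ≤ 4 / 5 := by
    rw [hc, div_le_iff₀ hN0, hN]; linarith
  have hc' : 1 - c = (b : ℝ) / N := by
    rw [hc]; field_simp; rw [hN]; ring
  obtain ⟨hset, hleft, hright⟩ := hTRE.2 c (by linarith) (by linarith)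
  obtain ⟨t, ht⟩ : ∃ t : E, t = (-c, -(3 / 8)) := ⟨_, rfl⟩
  have oT : orient (0, 0) (1, 0) (c, 1) = 1 := by unfold orient; norm_num
  have oL : orient (0, 0) (c, 0) (c, 1) = c := by unfold orient; norm_num
  have oR : orient (c, 0) (1, 0) (c, 1) = 1 - c := by unfold orient; norm_num
  have oT' : orient (0, 0) (1, 0) (c, 1) ≠ 0 := by rw [oT]; norm_num
  have oL' : orient (0, 0) (c, 0) (c, 1) ≠ 0 := by rw [oL]; linarith
  have oR' : orient (c, 0) (1, 0) (c, 1) ≠ 0 := by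
    rw [oR]
    have : 0 < 1 - c := by linarith
    exact this.ne'
  have hbody : Body (tr t '' tri (0, 0) (1, 0) (c, 1)) :=
    body_tr hAFF t _ (hTRE.1 _ _ _ oT').1
  have hmem : ∀ q : E, q ∈ tr t '' tri (0, 0) (1, 0) (c, 1) ↔
      0 ≤ q.2 + 3 / 8 ∧ c * (q.2 + 3 / 8) ≤ q.1 + c ∧ q.1 + c ≤ 1 - (1 - c) * (q.2 + 3 / 8) := by
    intro q
    rw [mem_tr, hset, ht]
    simp only [Set.mem_setOf_eq, sub_neg_eq_add]
  have hKL : tr t '' tri (0, 0) (1, 0) (c, 1) ∩ {p | p.1 ≤ 0} =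
      tr t '' tri (0, 0) (c, 0) (c, 1) := by
    rw [← hleft]
    ext q
    rw [Set.mem_inter_iff, mem_tr, mem_tr, Set.mem_inter_iff]
    simp only [Set.mem_setOf_eq, ht, sub_neg_eq_add]
    constructor
    · rintro ⟨h1, h2⟩
      exact ⟨h1, by linarith⟩
    · rintro ⟨h1, h2⟩
      exact ⟨h1, by linarith⟩
  have hKR : tr t '' tri (0, 0) (1, 0) (c, 1) ∩ {p | 0 ≤ p.1} =
      tr t '' tri (c, 0) (1, 0) (c, 1) := by
    rw [← hright]
    ext q
    rw [Set.mem_inter_iff, mem_tr, mem_tr, Set.mem_inter_iff]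
    simp only [Set.mem_setOf_eq, ht, sub_neg_eq_add]
    constructor
    · rintro ⟨h1, h2⟩
      exact ⟨h1, by linarith⟩
    · rintro ⟨h1, h2⟩
      exact ⟨h1, by linarith⟩
  have hcut := hCUT (tr t '' tri (0, 0) (1, 0) (c, 1)) (1 / 20) (3 / 16) 1 (1 / N)
    (-c, -(3 / 8)) (1 - c, -(3 / 8)) a b hbody.conv hbody.cpt (by norm_num) (by norm_num)
    (by norm_num) (by norm_num)
    (by
      intro p hp
      rw [hmem] at hp
      obtain ⟨h1, h2, h3⟩ := hp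
      rw [abs_le]
      constructor
      · linarith
      · nlinarith)
    (by
      rintro p ⟨h1, h2⟩
      rw [hmem]
      rw [abs_le] at h1 h2
      obtain ⟨h3, h4⟩ := h1
      obtain ⟨h5, h6⟩ := h2
      refine ⟨by linarith, ?_, ?_⟩
      · have : c * (p.2 + 3 / 8) ≤ c * (3 / 4) :=
          mul_le_mul_of_nonneg_left (by linarith) (by linarith)
        linarith
      · have : (1 - c) * (p.2 + 3 / 8) ≤ (1 - c) * (3 / 4) :=
          mul_le_mul_of_nonneg_left (by linarith) (by linarith)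
        linarith)
    (by
      rw [hmem]
      norm_num)
    (by
      show -c ≤ -(1 / 20)
      linarith)
    (by
      rw [hmem]
      norm_num)
    (by
      show (1 : ℝ) / 20 ≤ 1 - c
      linarith)
    (by positivity)
    (by
      rw [div_lt_one hN0]; linarith)
    ha hb
  rw [hKL, hKR, vr_tr hAFF, vr_tr hAFF, vr_tr hAFF,
    vr_tri hTRE _ _ _ oT' _ (1 / 2) (by rw [oT]; norm_num),
    vr_tri hTRE _ _ _ oL' _ (c / 2) (by rw [oL, abs_of_nonneg (by linarith)]),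
    vr_tri hTRE _ _ _ oR' _ ((1 - c) / 2) (by rw [oR, abs_of_nonneg (by linarith)])] at hcut
  have hpow : Real.exp (-4) ≤ (1 - 1 / N) ^ (2 * (a + b)) := by
    have := pow_bound (a + b) (by omega)
    push_cast at this
    exact this
  have hQ := mod_bound hMOD a b ha hb
  rw [← hN, ← hc, ← hc'] at hQ
  have hQ0 : 0 ≤ c ^ a * (1 - c) ^ b := by
    have h1 : 0 ≤ c := by linarith
    have h2 : 0 ≤ 1 - c := by linarith
    positivity
  apply algebra a b ha hb (w a T0) (w b T0) (w (a + b + 6) T0) ((1 - 1 / N) ^ (2 * (a + b)))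
    (c ^ a * (1 - c) ^ b) (w_nonneg _ _) (w_nonneg _ _) (w_nonneg _ _) hpow
    (by rw [← hN, ← mul_assoc ((a + b).choose a : ℝ)]; exact hQ) hQ0
  rw [← hN]
  refine le_trans (le_of_eq ?_) hcut
  have e1 : (c / 2) ^ a = c ^ a * (1 / 2) ^ a := by rw [← mul_pow]; congr 1; ring
  have e2 : ((1 - c) / 2) ^ b = (1 - c) ^ b * (1 / 2) ^ b := by rw [← mul_pow]; congr 1; ring
  have e3 : (1 / 2 : ℝ) ^ (a + b) = (1 / 2) ^ a * (1 / 2) ^ b := pow_add _ _ _
  rw [e1, e2, e3]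
  have hfa : (0 : ℝ) < (a.factorial : ℝ) := by positivity
  have hfb : (0 : ℝ) < (b.factorial : ℝ) := by positivity
  generalize (1 / N * (1 / 20) * (3 / 16) / (256 * 1)) ^ 12 = X1
  generalize (1 - 1 / N) ^ (2 * (a + b)) = X2
  generalize (1 / 2 : ℝ) ^ a = X3
  generalize (1 / 2 : ℝ) ^ b = X4
  generalize (1 - c) ^ b = X5
  generalize c ^ a = X6
  field_simp

end RP.PkTRW
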